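import Pool.Agent.Y293.FA.Stm3

/-!
# CUBEN: the energy of the rescaled conditional measure on a small set (project FA2)
-/

set_option autoImplicit false

namespace Pool.Agent.Y87.FA

open MeasureTheory Metric Set Filter Topology ENNReal
open Pool.Agent.Y293.FA (en Frm cm rs S_CUBEN)

/-- points have measure zero -/
theorem point {μ : Measure ℂ} {C s : ℝ} (hs : 0 < s) (h : Frm μ C s) (x : ℂ) : μ {x} = 0 := by
  have h1 : Tendsto (fun n : ℕ => ENNReal.ofReal (C * ((1:ℝ) / ((n:ℝ) + 1)) ^ s)) atTop (𝓝 0) := by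
    have h2 : Tendsto (fun n : ℕ => C * ((1:ℝ) / ((n:ℝ) + 1)) ^ s) atTop (𝓝 (C * 0)) := by
      refine Tendsto.const_mul C ?_
      have h3 := (tendsto_one_div_add_atTop_nhds_zero_nat (𝕜 := ℝ)).rpow_const (p := s)
        (Or.inr hs.le)
      rwa [Real.zero_rpow hs.ne'] at h3
    rw [mul_zero] at h2
    have := ENNReal.tendsto_ofReal h2
    rwa [ENNReal.ofReal_zero] at this
  refine le_antisymm (ge_of_tendsto' h1 (fun n => ?_)) zero_le'
  have hr : (0:ℝ) < 1 / ((n:ℝ) + 1) := by positivity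
  refine (measure_mono ?_).trans (h x _ hr)
  intro z hz
  rw [mem_singleton_iff] at hz
  rw [hz]
  exact mem_closedBall_self hr.le

/-- the potential of the measure on a set of diameter at most `4 l` -/
theorem inner {μ : Measure ℂ} {C s s' : ℝ} (hC : 0 < C) (hs' : 0 < s') (hss : s' < s)
    (h : Frm μ C s) {Q : Set ℂ} (hQ : MeasurableSet Q) {y : ℂ} {l : ℝ} (hl : 0 < l)
    (hy : ∀ z ∈ Q, ‖z - y‖ ≤ 2 * l) {x : ℂ} (hx : x ∈ Q) :
    ∫⁻ x' in Q, edist ((x - y) / (l : ℂ)) ((x' - y) / (l : ℂ)) ^ (-s') ∂μ ≤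
      ENNReal.ofReal (C * 4 ^ (s - s') * 2 ^ s' / (1 - (1 / 2 : ℝ) ^ (s - s')) * l ^ s) := by
  have hρ0 : (0:ℝ) < (1 / 2 : ℝ) ^ (s - s') := by positivity
  have hρ1 : (1 / 2 : ℝ) ^ (s - s') < 1 :=
    Real.rpow_lt_one (by norm_num) (by norm_num) (by linarith)
  -- distances
  have hd : ∀ x' : ℂ, edist ((x - y) / (l : ℂ)) ((x' - y) / (l : ℂ)) =
      ENNReal.ofReal (dist x x' / l) := by
    intro x'
    rw [edist_dist, dist_eq_norm, dist_eq_norm, ← sub_div, norm_div, Complex.norm_real,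
      Real.norm_of_nonneg hl.le]
    congr 3
    ring
  let a : ℕ → ℝ≥0∞ := fun j => ENNReal.ofReal ((4 * (1 / 2 : ℝ) ^ (j + 1)) ^ (-s'))
  let B : ℕ → Set ℂ := fun j => closedBall x (4 * l * (1 / 2 : ℝ) ^ j)
  have hpt : ∀ᵐ x' ∂(μ.restrict Q), edist ((x - y) / (l : ℂ)) ((x' - y) / (l : ℂ)) ^ (-s') ≤
      ∑' j, a j * (B j).indicator 1 x' := by
    have h1 : ∀ᵐ x' ∂(μ.restrict Q), x' ≠ x := by
      have h2 : (μ.restrict Q) {x} = 0 :=
        le_antisymm ((Measure.restrict_apply_le _ _).trans (point (hs'.trans hss) h x).le) zero_le'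
      exact measure_eq_zero_iff_ae_notMem.1 h2
    filter_upwards [h1, ae_restrict_mem hQ] with x' hne hx'
    have hu0 : 0 < dist x x' / l := div_pos (dist_pos.2 hne.symm) hl
    have hu4 : dist x x' / l ≤ 4 := by
      rw [div_le_iff₀ hl]
      calc dist x x' ≤ dist x y + dist y x' := dist_triangle _ _ _
        _ ≤ 2 * l + 2 * l := by
            rw [dist_comm y x', dist_eq_norm, dist_eq_norm]
            exact add_le_add (hy x hx) (hy x' hx')
        _ = 4 * l := by ring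
    obtain ⟨j, hj1, hj2⟩ := exists_nat_pow_near_of_lt_one (x := dist x x' / l / 4) (y := (1/2 : ℝ))
      (by positivity) (by linarith) (by norm_num) (by norm_num)
    refine le_trans ?_ (ENNReal.le_tsum j)
    have hB : x' ∈ B j := by
      rw [mem_closedBall, dist_comm]
      have : dist x x' / l / 4 * (4 * l) ≤ (1/2 : ℝ) ^ j * (4 * l) :=
        mul_le_mul_of_nonneg_right hj2 (by positivity)
      have e : dist x x' / l / 4 * (4 * l) = dist x x' := by field_simp
      rw [e] at this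
      linarith
    rw [indicator_of_mem hB, Pi.one_apply, mul_one, hd, ENNReal.ofReal_rpow_of_pos hu0]
    apply ENNReal.ofReal_le_ofReal
    apply Real.rpow_le_rpow_of_nonpos (by positivity) _ (by linarith)
    have : (1/2 : ℝ) ^ (j + 1) * 4 < dist x x' / l / 4 * 4 :=
      mul_lt_mul_of_pos_right hj1 (by norm_num)
    linarith
  calc ∫⁻ x' in Q, edist ((x - y) / (l : ℂ)) ((x' - y) / (l : ℂ)) ^ (-s') ∂μ
      ≤ ∫⁻ x' in Q, ∑' j, a j * (B j).indicator 1 x' ∂μ := lintegral_mono_ae hpt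
    _ = ∑' j, ∫⁻ x' in Q, a j * (B j).indicator 1 x' ∂μ := by
        refine lintegral_tsum (fun j => ?_)
        exact (measurable_const.mul
          (measurable_one.indicator isClosed_closedBall.measurableSet)).aemeasurable
    _ ≤ ∑' j, ENNReal.ofReal ((C * 4 ^ (s - s') * 2 ^ s' * l ^ s) *
          ((1 / 2 : ℝ) ^ (s - s')) ^ j) := by
        refine ENNReal.tsum_le_tsum (fun j => ?_)
        rw [lintegral_const_mul _
          (measurable_one.indicator isClosed_closedBall.measurableSet),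
          lintegral_indicator_one isClosed_closedBall.measurableSet]
        have hr : 0 < 4 * l * (1 / 2 : ℝ) ^ j := by positivity
        refine (mul_le_mul_right (((Measure.restrict_apply_le _ _).trans (h x _ hr))) _).trans ?_
        rw [← ENNReal.ofReal_mul (by positivity)]
        apply ENNReal.ofReal_le_ofReal
        apply le_of_eq
        have e1 : (4 * (1 / 2 : ℝ) ^ (j + 1)) ^ (-s') =
            4 ^ (-s') * ((1 / 2 : ℝ) ^ (-s')) ^ (j + 1) := by
          rw [Real.mul_rpow (by norm_num) (by positivity), ← Real.rpow_natCast, ← Real.rpow_mul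
            (by norm_num), ← Real.rpow_natCast, ← Real.rpow_mul (by norm_num), mul_comm (-s')]
        have e2 : (4 * l * (1 / 2 : ℝ) ^ j) ^ s = 4 ^ s * l ^ s * ((1 / 2 : ℝ) ^ s) ^ j := by
          rw [Real.mul_rpow (by positivity) (by positivity), Real.mul_rpow (by norm_num) hl.le,
            ← Real.rpow_natCast, ← Real.rpow_mul (by norm_num), ← Real.rpow_natCast,
            ← Real.rpow_mul (by norm_num), mul_comm s]
        have e3 : (4 : ℝ) ^ (s - s') = 4 ^ s * 4 ^ (-s') := by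
          rw [sub_eq_add_neg, Real.rpow_add (by norm_num)]
        have e4 : (1 / 2 : ℝ) ^ (s - s') = (1 / 2) ^ s * (1 / 2) ^ (-s') := by
          rw [sub_eq_add_neg, Real.rpow_add (by norm_num)]
        have e5 : (2 : ℝ) ^ s' = (1 / 2) ^ (-s') := by
          rw [one_div, Real.inv_rpow (by norm_num), Real.rpow_neg (by norm_num), inv_inv]
        rw [e1, e2, e3, e4, e5, mul_pow]
        ring
    _ = ENNReal.ofReal (∑' j : ℕ, (C * 4 ^ (s - s') * 2 ^ s' * l ^ s) *
          ((1 / 2 : ℝ) ^ (s - s')) ^ j) := by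
        rw [ENNReal.ofReal_tsum_of_nonneg (fun j => by positivity)
          ((summable_geometric_of_lt_one hρ0.le hρ1).mul_left _)]
    _ = _ := by
        rw [tsum_mul_left, tsum_geometric_of_lt_one hρ0.le hρ1]
        congr 1
        field_simp

theorem cuben : S_CUBEN := by
  intro C s s' hC hs' hss
  have hρ1 : (1 / 2 : ℝ) ^ (s - s') < 1 :=
    Real.rpow_lt_one (by norm_num) (by norm_num) (by linarith)
  have hD : 0 < C * 4 ^ (s - s') * 2 ^ s' / (1 - (1 / 2 : ℝ) ^ (s - s')) :=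
    div_pos (by positivity) (by linarith)
  refine ⟨_, hD, ?_⟩
  intro μ _ hF Q hQ hq0 y l hl hy
  set D := C * 4 ^ (s - s') * 2 ^ s' / (1 - (1 / 2 : ℝ) ^ (s - s')) with hDd
  have hqt : μ Q ≠ ⊤ := measure_ne_top μ Q
  calc en s' (rs y l (cm μ Q))
      = ∫⁻ x, ∫⁻ x', edist x x' ^ (-s') ∂(rs y l (cm μ Q)) ∂(rs y l (cm μ Q)) := rfl
    _ ≤ ∫⁻ x, ∫⁻ x', edist ((x - y) / (l : ℂ)) x' ^ (-s') ∂(rs y l (cm μ Q)) ∂(cm μ Q) :=
        lintegral_map_le _ _
    _ ≤ ∫⁻ x, ∫⁻ x', edist ((x - y) / (l : ℂ)) ((x' - y) / (l : ℂ)) ^ (-s') ∂(cm μ Q)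
          ∂(cm μ Q) := lintegral_mono (fun x => lintegral_map_le _ _)
    _ = (μ Q)⁻¹ * ∫⁻ x in Q, (μ Q)⁻¹ *
          ∫⁻ x' in Q, edist ((x - y) / (l : ℂ)) ((x' - y) / (l : ℂ)) ^ (-s') ∂μ ∂μ := by
        unfold cm
        rw [lintegral_smul_measure, smul_eq_mul]
        congr 1
        refine lintegral_congr (fun x => ?_)
        rw [lintegral_smul_measure, smul_eq_mul]
    _ ≤ (μ Q)⁻¹ * ∫⁻ _ in Q, (μ Q)⁻¹ * ENNReal.ofReal (D * l ^ s) ∂μ := by
        refine mul_le_mul_right (setLIntegral_mono' hQ (fun x hx => ?_)) _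
        exact mul_le_mul_right (inner hC hs' hss hF hQ hl hy hx) _
    _ = ENNReal.ofReal (D * l ^ s) / μ Q := by
        rw [setLIntegral_const, div_eq_mul_inv]
        rw [mul_comm (μ Q)⁻¹ (ENNReal.ofReal (D * l ^ s)), mul_assoc (ENNReal.ofReal (D * l ^ s)),
          ENNReal.inv_mul_cancel hq0 hqt, mul_one, mul_comm]

end Pool.Agent.Y87.FA
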